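import Pool.Agent.helper81.CW.Spec2

/-! # Project cw (MP_447e26_gt), module MU3: upper bound for the volume of `M n` -/

open MeasureTheory Set
open scoped ENNReal

namespace Pool.Agent.helper81.CW

theorem MU3_norm {n : ℕ} (z : E n) : ‖z‖ ^ 2 = pn z ^ 2 + nn z ^ 2 := by
  unfold pn nn
  rw [Real.sq_sqrt (Finset.sum_nonneg fun i _ => sq_nonneg _),
    Real.sq_sqrt (Finset.sum_nonneg fun i _ => sq_nonneg _), EuclideanSpace.norm_sq_eq,
    ← Finset.sum_add_distrib]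
  refine Finset.sum_congr rfl fun i _ => ?_
  rw [Real.norm_eq_abs, sq_abs]
  rcases le_total (z i) 0 with h | h
  · rw [min_eq_left h, max_eq_right h]; ring
  · rw [min_eq_right h, max_eq_left h]; ring

theorem MU3_num {S : ℝ} (hS0 : 0 ≤ S) (hS : S ≤ 0.9301) :
    Real.sqrt (2 * Real.pi * Real.exp 1) / 2 * S ^ ((3 : ℝ) / 2) ≤ 1.854 := by
  have h1 : S ^ ((3 : ℝ) / 2) ≤ (0.9301 : ℝ) ^ ((3 : ℝ) / 2) :=
    Real.rpow_le_rpow hS0 hS (by norm_num)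
  have h2 : 0 ≤ (0.9301 : ℝ) ^ ((3 : ℝ) / 2) := Real.rpow_nonneg (by norm_num) _
  have h3 : ((0.9301 : ℝ) ^ ((3 : ℝ) / 2)) ^ 2 = 0.9301 ^ 3 := by
    rw [← Real.rpow_natCast, ← Real.rpow_mul (by norm_num), ← Real.rpow_natCast]
    norm_num
  have hpe : 0 ≤ 2 * Real.pi * Real.exp 1 := by positivity
  refine (mul_le_mul_of_nonneg_left h1 (by positivity)).trans ?_
  rw [← pow_le_pow_iff_left₀ (by positivity) (by norm_num) (two_ne_zero), mul_pow, div_pow, h3,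
    Real.sq_sqrt hpe]
  have hpi := Real.pi_lt_d4
  have he := Real.exp_one_lt_d9
  have hpi0 := Real.pi_pos
  have h4 : Real.pi * Real.exp 1 ≤ 3.1416 * 2.7182818286 :=
    mul_le_mul hpi.le he.le (Real.exp_pos 1).le (by norm_num)
  nlinarith [h4]

theorem MU3_step (h2 : MU2_stmt) (j : ℕ)
    (hD : 0 ≤ 1 / 2 - ((j : ℝ) / 4000) ^ 2 - Real.sqrt 2 * ((j : ℝ) / 4000)) :
    ∃ P : ℝ, 0 < P ∧
      Real.sqrt (1 / 2 - ((j : ℝ) / 4000) ^ 2 - Real.sqrt 2 * ((j : ℝ) / 4000)) ≤ P ∧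
      Real.sqrt (2 * Real.pi * Real.exp 1) / 2 *
        (P ^ ((2 : ℝ) / 3) + ((j : ℝ) / 4000 + 1 / 4000) ^ ((2 : ℝ) / 3)) ^ ((3 : ℝ) / 2) ≤ 1.854 := by
  set D : ℝ := 1 / 2 - ((j : ℝ) / 4000) ^ 2 - Real.sqrt 2 * ((j : ℝ) / 4000) with hDdef
  set q : ℝ := (j : ℝ) / 4000 with hq
  have hq0 : 0 ≤ q := by positivity
  set a : ℝ := D ^ ((1 : ℝ) / 3) with ha
  have ha0 : 0 ≤ a := Real.rpow_nonneg hD _
  set b : ℝ := q ^ ((2 : ℝ) / 3) with hb
  have hb0 : 0 ≤ b := Real.rpow_nonneg hq0 _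
  have e1 : a ^ 3 = D := by
    rw [ha, ← Real.rpow_natCast, ← Real.rpow_mul hD]
    norm_num
  have e2 : b ^ 3 = q ^ 2 := by
    rw [hb, ← Real.rpow_natCast, ← Real.rpow_mul hq0, ← Real.rpow_natCast]
    norm_num
  have e3 : b ^ ((3 : ℝ) / 2) = q := by
    rw [hb, ← Real.rpow_mul hq0]
    norm_num
  have hab : a + b ≤ 0.9260 := by
    apply h2 a b ha0 hb0
    rw [e1, e2, e3, hDdef]
    linarith
  have hh : (1 / 4000 : ℝ) ^ ((2 : ℝ) / 3) ≤ 0.004 := by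
    have e4 : (1 / 4000 : ℝ) ^ ((2 : ℝ) / 3) = ((1 / 4000 : ℝ) ^ 2) ^ ((1 : ℝ) / 3) := by
      rw [← Real.rpow_natCast, ← Real.rpow_mul (by norm_num)]
      norm_num
    have e5 : (0.004 : ℝ) = ((0.004 : ℝ) ^ 3) ^ ((1 : ℝ) / 3) := by
      rw [← Real.rpow_natCast, ← Real.rpow_mul (by norm_num)]
      norm_num
    rw [e4, e5]
    exact Real.rpow_le_rpow (by norm_num) (by norm_num) (by norm_num)
  have hQ : (q + 1 / 4000) ^ ((2 : ℝ) / 3) ≤ b + 0.004 :=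
    (Real.rpow_add_le_add_rpow hq0 (by norm_num) (by norm_num) (by norm_num)).trans
      (add_le_add le_rfl hh)
  have ha1 : 0 < a + 0.0001 := by linarith
  refine ⟨(a + 0.0001) ^ ((3 : ℝ) / 2), Real.rpow_pos_of_pos ha1 _, ?_, ?_⟩
  · have e6 : Real.sqrt D = a ^ ((3 : ℝ) / 2) := by
      rw [ha, ← Real.rpow_mul hD, Real.sqrt_eq_rpow]
      norm_num
    rw [e6]
    exact Real.rpow_le_rpow ha0 (by linarith) (by norm_num)
  · have e7 : ((a + 0.0001) ^ ((3 : ℝ) / 2)) ^ ((2 : ℝ) / 3) = a + 0.0001 := by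
      rw [← Real.rpow_mul ha1.le]
      norm_num
    rw [e7]
    apply MU3_num
    · have := Real.rpow_nonneg (by positivity : 0 ≤ q + 1 / 4000) ((2 : ℝ) / 3)
      linarith
    · linarith

theorem MU3 (h1 : MU1_stmt) (h2 : MU2_stmt) : MU3_stmt := by
  intro n hn
  classical
  set I : Finset ℕ := (Finset.range 1200).filter
    fun j => 0 ≤ 1 / 2 - ((j : ℝ) / 4000) ^ 2 - Real.sqrt 2 * ((j : ℝ) / 4000) with hI
  have hex : ∀ j : ℕ, ∃ P : ℝ, j ∈ I → 0 < P ∧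
      Real.sqrt (1 / 2 - ((j : ℝ) / 4000) ^ 2 - Real.sqrt 2 * ((j : ℝ) / 4000)) ≤ P ∧
      Real.sqrt (2 * Real.pi * Real.exp 1) / 2 *
        (P ^ ((2 : ℝ) / 3) + ((j : ℝ) / 4000 + 1 / 4000) ^ ((2 : ℝ) / 3)) ^ ((3 : ℝ) / 2) ≤
          1.854 := by
    intro j
    by_cases hj : j ∈ I
    · obtain ⟨P, hP⟩ := MU3_step h2 j (Finset.mem_filter.1 hj).2
      exact ⟨P, fun _ => hP⟩
    · exact ⟨0, fun h => absurd h hj⟩
  choose P hP using hex
  have hs2 : 0 ≤ Real.sqrt 2 := Real.sqrt_nonneg 2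
  have hs2' : Real.sqrt 2 ^ 2 = 2 := Real.sq_sqrt (by norm_num)
  have hcov : M n ⊆ ⋃ j ∈ I, {z : E n | pn z ≤ P j ∧ nn z ≤ (j : ℝ) / 4000 + 1 / 4000} := by
    intro z hz
    have hz' : ‖z‖ ^ 2 + Real.sqrt 2 * nn z ≤ 1 / 2 := hz
    rw [MU3_norm] at hz'
    have hq0 : 0 ≤ nn z := Real.sqrt_nonneg _
    have hp0 : 0 ≤ pn z := Real.sqrt_nonneg _
    have hq3 : nn z < 0.3 := by
      by_contra hcon
      push Not at hcon
      have h14 : 1.41 ≤ Real.sqrt 2 := by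
        rw [Real.le_sqrt (by norm_num) (by norm_num)]
        norm_num
      nlinarith [sq_nonneg (pn z)]
    set j : ℕ := ⌊nn z * 4000⌋₊ with hj
    have hj1 : (j : ℝ) ≤ nn z * 4000 := Nat.floor_le (by positivity)
    have hj2 : nn z * 4000 < j + 1 := Nat.lt_floor_add_one _
    have hj3 : j < 1200 := by
      rw [hj, Nat.floor_lt (by positivity)]
      push_cast
      linarith
    have hjq : (j : ℝ) / 4000 ≤ nn z := by
      rw [div_le_iff₀ (by norm_num)]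
      exact hj1
    have hj0 : (0 : ℝ) ≤ (j : ℝ) / 4000 := by positivity
    have hsq : ((j : ℝ) / 4000) ^ 2 ≤ nn z ^ 2 := pow_le_pow_left₀ hj0 hjq 2
    have hmul : Real.sqrt 2 * ((j : ℝ) / 4000) ≤ Real.sqrt 2 * nn z :=
      mul_le_mul_of_nonneg_left hjq hs2
    have hpD : pn z ^ 2 ≤ 1 / 2 - ((j : ℝ) / 4000) ^ 2 - Real.sqrt 2 * ((j : ℝ) / 4000) := by
      linarith
    have hjI : j ∈ I := Finset.mem_filter.2 ⟨Finset.mem_range.2 hj3, (sq_nonneg _).trans hpD⟩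
    refine mem_iUnion₂.2 ⟨j, hjI, ?_, ?_⟩
    · exact (Real.le_sqrt hp0 ((sq_nonneg _).trans hpD)).2 hpD |>.trans (hP j hjI).2.1
    · have : nn z * 4000 ≤ (j : ℝ) + 1 := hj2.le
      linarith
  have hb : ∀ j ∈ I, volume {z : E n | pn z ≤ P j ∧ nn z ≤ (j : ℝ) / 4000 + 1 / 4000} ≤
      ENNReal.ofReal (1.854 ^ n / (n : ℝ) ^ ((n : ℝ) / 2)) := by
    intro j hj
    obtain ⟨hP0, -, hP2⟩ := hP j hj
    refine (h1 n (P j) ((j : ℝ) / 4000 + 1 / 4000) hn hP0 (by positivity)).trans ?_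
    apply ENNReal.ofReal_le_ofReal
    apply div_le_div_of_nonneg_right _ (Real.rpow_nonneg (Nat.cast_nonneg n) _)
    apply pow_le_pow_left₀ _ hP2
    have := Real.rpow_nonneg hP0.le ((2 : ℝ) / 3)
    positivity
  calc volume (M n) ≤ volume (⋃ j ∈ I, {z : E n | pn z ≤ P j ∧ nn z ≤ (j : ℝ) / 4000 + 1 / 4000}) :=
        measure_mono hcov
    _ ≤ ∑ j ∈ I, volume {z : E n | pn z ≤ P j ∧ nn z ≤ (j : ℝ) / 4000 + 1 / 4000} :=
        measure_biUnion_finset_le I _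
    _ ≤ ∑ _j ∈ I, ENNReal.ofReal (1.854 ^ n / (n : ℝ) ^ ((n : ℝ) / 2)) := Finset.sum_le_sum hb
    _ = (I.card : ℝ≥0∞) * ENNReal.ofReal (1.854 ^ n / (n : ℝ) ^ ((n : ℝ) / 2)) := by
        rw [Finset.sum_const, nsmul_eq_mul]
    _ ≤ ENNReal.ofReal 2000 * ENNReal.ofReal (1.854 ^ n / (n : ℝ) ^ ((n : ℝ) / 2)) := by
        gcongr
        rw [← ENNReal.ofReal_natCast]
        apply ENNReal.ofReal_le_ofReal
        have h3 : I.card ≤ 1200 := by
          calc I.card ≤ (Finset.range 1200).card := Finset.card_filter_le _ _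
            _ = 1200 := Finset.card_range _
        have h4 : (I.card : ℝ) ≤ 1200 := by exact_mod_cast h3
        linarith
    _ = ENNReal.ofReal (2000 * 1.854 ^ n / (n : ℝ) ^ ((n : ℝ) / 2)) := by
        rw [← ENNReal.ofReal_mul (by norm_num), mul_div_assoc]

end Pool.Agent.helper81.CW
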